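import Mathlib
import Pool.Agent.Shared.Forcing
import Pool.Agent.Lib.MP_053343_lc.Defs
import Pool.Agent.Lib.MP_6993b6_lc.Defs
import Pool.Agent.Lib.MP_6993b6_lc.Q1.GDefs
import Pool.Agent.Lib.MP_6993b6_lc.Q1.T3
import Pool.Agent.Lib.MP_6993b6_lc.Q1.Core
import Pool.Agent.Lib.MP_6993b6_lc.Q1.Bridge
import Pool.Agent.Lib.MP_6993b6_lc.Q1.RMain

/-!
Positive answer to Q1 of MP_6993b6_lc: from a measurable cardinal, a countable transitive model
of ZFC in which the tree property at `ω₂` holds and is indestructible under ccc forcing.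
-/

namespace Pool.Agent.Results.MP_6993b6_lc.CccIndestructible

open Cardinal Pool.Agent.Lib.MP_053343_lc Pool.Agent.Lib.MP_6993b6_lc
open Pool.Agent.Lib.MP_6993b6_lc.Q1 Pool.Agent.Shared.Forcing

theorem result (K : Type) (U : Ultrafilter K) (hK : ℵ₀ < #K)
    [CardinalInterFilter (U : Filter K) #K] (hU : ∀ x, {x} ∉ U) :
    ∃ M : ZFSet.{0}, ModelZF M ∧ Choice M ∧ M.toSet.Countable ∧ TP M ∧
      ∀ P ∈ M, ∀ r ∈ M, Pre P r → Ccc M P r → (∀ p ∈ P, ∃ G, Gen M P r G ∧ p ∈ G) ∧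
        ∀ G, Gen M P r G → ∃ N, IsExtG M G N ∧ ModelZF N ∧ Choice N ∧ TP N := by
  obtain ⟨R, W, K, Q, _, _, _, _, _, _, Le, Z, S⟩ := exists_vs K U hK hU
  obtain ⟨M, h⟩ := transfer S
  have h' := bridge core h
  obtain ⟨_, _, hc, -⟩ := h
  exact ⟨M, Shared.InModel.Mdl.zf, Shared.InModel.ac, hc, h'⟩

end Pool.Agent.Results.MP_6993b6_lc.CccIndestructible
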