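import Mathlib
import Pool.Agent.Shared.Forcing
import Pool.Agent.Lib.MP_053343_lc.Defs
import Pool.Agent.Lib.MP_6993b6_lc.Defs
import Pool.Agent.Lib.MP_6993b6_lc.Main
import Pool.Agent.Lib.MP_6993b6_lc.Models4

/-!
Positive answer to Q2 of MP_6993b6_lc: from a measurable cardinal, a countable transitive model
of ZFC with the tree property at `ω₂` in which one Cohen real adds an `ω₂`-Aronszajn tree.
-/

namespace Pool.Agent.Results.MP_6993b6_lc.CohenAronszajn

open Cardinal Pool.Agent.Lib.MP_053343_lc Pool.Agent.Lib.MP_6993b6_lc Pool.Agent.Shared.Forcing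

theorem result (K : Type) (U : Ultrafilter K) (hK : ℵ₀ < #K)
    [CardinalInterFilter (U : Filter K) #K] (hU : ∀ x, {x} ∉ U) :
    ∃ M : ZFSet.{0}, ModelZF M ∧ Choice M ∧ M.toSet.Countable ∧ TP M ∧ (∃ x, Cohen M x) ∧
      ∀ x, Cohen M x → ∃ N, IsExt M x N ∧ ModelZF N ∧ Choice N ∧ HasAron N := by
  obtain ⟨P, K, W, _, _, _, _, _, _, S⟩ := exists_sys K U hK hU
  exact layerB S

end Pool.Agent.Results.MP_6993b6_lc.CohenAronszajn
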